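import Pool.Agent.Lib_helper36.Mat.Twist

/-!
MP_a731a6_co: for every field other than the one with two elements and every `n` there are
`n`-connected non-binary matroids representable over the field with three-element sets in no
`U_{2,4}`-minor.
-/

open Set H36Mat

namespace Pool.Agent.Results.MP_a731a6_co.EveryConnectivity

universe v

/-- For every field `F` with more than two elements and all `n`, `N` there are a finite
`n`-connected non-binary `F`-representable matroid `M` and a set `S` of at least `N` elements of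
`M` such that no circuit of `M` contains three elements of `S`; in particular no three-element
subset of `S` is in a `U_{2,4}`-minor of `M`. -/
theorem result (F : Type v) [Field F] (hF : ∃ t : F, t ≠ 0 ∧ t ≠ 1) (n N : ℕ) :
    ∃ (α : Type) (M : Matroid α), M.Finite ∧ TutteConnected n M ∧ RepresentableOver F M ∧
      ¬ Binary M ∧ ∃ S ⊆ M.E, (N : ℕ∞) ≤ S.encard ∧ ∀ X ⊆ S, X.encard = 3 →
        (∀ C, M.IsCircuit C → ¬ X ⊆ C) ∧ ¬ InU24Minor M X := by
  classical
  obtain ⟨t, ht0, ht1⟩ := hF
  set k := max n 2 with hk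
  set γ := max (3 * k) N with hγ
  have hk2 : 2 ≤ k := le_max_right _ _
  have hγ3 : 3 * k ≤ γ := le_max_left _ _
  have hγN : N ≤ γ := le_max_right _ _
  obtain ⟨W, hW, G, hG⟩ := exists_core k γ hk2 hγ3
  obtain ⟨c⟩ := hG.nonempty
  obtain ⟨a, ha⟩ : (nb G c).Nonempty := by
    rw [← Finset.card_pos]
    have := hG.deg c
    omega
  rw [mem_nb] at ha
  obtain ⟨b, hb, hbc⟩ : ∃ b ∈ nb G a, b ≠ c := by
    apply Finset.exists_mem_ne
    have := hG.deg a
    omega
  rw [mem_nb] at hb
  set θ : Sym2 W → F := tw s(a, b) t with hθ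
  have hθ0 : ∀ e, θ e ≠ 0 := by
    intro e
    rw [hθ]
    unfold tw
    split_ifs
    · exact ht0
    · exact one_ne_zero
  refine ⟨Sym2 W, GM F c θ G, inferInstance, ?_, (GM_rep F c θ G).representableOver,
    hG.twist_nonbinary F hk2 hγ3 hb ha.ne' hbc ht0 ht1, (fun p => s(c, p)) '' (nb G c : Set W),
    ?_, ?_, ?_⟩
  · intro j hj hjn
    exact GM_connected F c θ hG hk2 hγ3 hθ0 j hj (lt_of_lt_of_le hjn (le_max_left _ _))
  · rintro _ ⟨p, hp, rfl⟩
    exact mem_nb.1 hp
  · have hinj : InjOn (fun p => s(c, p)) (nb G c : Set W) := by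
      intro p _ q _ hpq
      rcases Sym2.eq_iff.1 hpq with ⟨_, h⟩ | ⟨h1, h2⟩
      · exact h
      · exact h2.trans h1
    rw [hinj.encard_image, Set.encard_coe_eq_coe_finsetCard]
    have := hG.deg c
    have h2 : N ≤ (nb G c).card := by omega
    exact_mod_cast h2
  · intro X hXS hX3
    obtain ⟨x, y, z, hxy, hxz, hyz, rfl⟩ := Set.encard_eq_three.1 hX3
    have hno : ∀ C, (GM F c θ G).IsCircuit C → ¬ ({x, y, z} : Set (Sym2 W)) ⊆ C := by
      intro C hC hXC
      have hjoint : ∀ e ∈ ((fun p => s(c, p)) '' (nb G c : Set W)), ∃ p, ∀ u,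
          gv F c θ e u ≠ 0 → u = p := by
        rintro _ ⟨p, _, rfl⟩
        refine ⟨p, fun u hu => ?_⟩
        by_contra hup
        apply hu
        by_cases huc : u = c
        · rw [huc]; exact gv_apply_c F c θ _
        · apply gv_apply_of_ne
          · rcases gv_ends (p := c) (q := p) with ⟨h1, h2⟩ | ⟨h1, h2⟩
            · rw [h1]; exact huc
            · rw [h1]; exact hup
          · rcases gv_ends (p := c) (q := p) with ⟨h1, h2⟩ | ⟨h1, h2⟩
            · rw [h2]; exact hup
            · rw [h2]; exact huc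
      obtain ⟨px, hpx⟩ := hjoint x (hXS (by simp))
      obtain ⟨py, hpy⟩ := hjoint y (hXS (by simp))
      obtain ⟨pz, hpz⟩ := hjoint z (hXS (by simp))
      refine (GM_rep F c θ G).no_circuit_three_joints ?_ hxy hxz hyz hpx hpy hpz hC
        (hXC (by simp)) (hXC (by simp)) (hXC (by simp))
      intro e _
      refine ⟨src e, tgt e, fun u hu => ?_⟩
      by_contra hcon
      push Not at hcon
      exact hu (gv_apply_of_ne F c θ hcon.1 hcon.2)
    exact ⟨hno, not_inU24_of_no_circuit hxy hxz hyz hno⟩

end Pool.Agent.Results.MP_a731a6_co.EveryConnectivity
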