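import Pool.Agent.Lib_helper36.Mat.RankFive
import Pool.Agent.Lib_helper36.Mat.Blocks

/-!
MP_a731a6_co: the ranks of the 4-connected non-binary matroids with a three-element set in no
`U_{2,4}`-minor are exactly the numbers from five on.
-/

open Set H36Mat

namespace Pool.Agent.Results.MP_a731a6_co.RankFive

universe u v

/-- If some three-element set is in no `U_{2,4}`-minor of the finite 4-connected matroid `M` with
at least four elements, then `M` and its dual have rank at least five. Conversely for every field
`F` of characteristic different from two and every `r ≥ 5` there is a finite 4-connected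
non-binary `F`-representable matroid of rank `r` with a three-element set that is contained in no
circuit and so is in no `U_{2,4}`-minor. -/
theorem result :
    (∀ {α : Type u} (M : Matroid α) [M.Finite], TutteConnected 4 M → 4 ≤ M.E.encard →
      ∀ X ⊆ M.E, X.encard = 3 → ¬ InU24Minor M X → 5 ≤ M.eRank ∧ 5 ≤ M✶.eRank) ∧
    (∀ (F : Type v) [Field F], (2 : F) ≠ 0 → ∀ r : ℕ, 5 ≤ r →
      ∃ (α : Type) (M : Matroid α), M.Finite ∧ TutteConnected 4 M ∧ 4 ≤ M.E.encard ∧
        RepresentableOver F M ∧ ¬ Binary M ∧ M.eRank = r ∧
        ∃ X ⊆ M.E, X.encard = 3 ∧ (∀ C, M.IsCircuit C → ¬ X ⊆ C) ∧ ¬ InU24Minor M X) := by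
  constructor
  · intro α M hfin hM h4 X hX hX3 hbad
    obtain ⟨h1, h2, -, -⟩ := necessary hM h4 hX hX3 hbad
    exact ⟨h1, h2⟩
  · intro F _ h2 r hr
    set k := r - 3 with hk
    have hk2 : 2 ≤ k := by omega
    refine ⟨Fin 3 ⊕ (Fin k × Fin 4), BM F k, inferInstance, BM_connected F k h2 hk2, ?_,
      (BM_rep F k).representableOver, BM_not_binary F k h2 (by omega), ?_,
      {Sum.inl 0, Sum.inl 1, Sum.inl 2}, subset_univ _, ?_, ?_, ?_⟩
    · rw [BM_E, encard_univ, ENat.card_eq_coe_fintype_card, Fintype.card_sum, Fintype.card_prod,
        Fintype.card_fin, Fintype.card_fin, Fintype.card_fin]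
      exact_mod_cast (by omega : 4 ≤ 3 + k * 4)
    · rw [BM_eRank]
      exact_mod_cast (by omega : k + 3 = r)
    · rw [encard_insert_of_notMem, encard_insert_of_notMem, encard_singleton]
      · norm_num
      · simp
      · simp
    · intro C hC hXC
      apply BM_no_circuit F k hC
      intro i
      apply hXC
      fin_cases i <;> simp
    · apply not_inU24_of_no_circuit (by simp) (by simp) (by simp)
      intro C hC hXC
      apply BM_no_circuit F k hC
      intro i
      apply hXC
      fin_cases i <;> simp

end Pool.Agent.Results.MP_a731a6_co.RankFive
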