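import Pool.Agent.Lib_helper36.Mat.Relax

/-!
MP_a731a6_co: the question settled for all matroids obtained by relaxing circuit-hyperplanes.
-/

open Set H36Mat

namespace Pool.Agent.Results.MP_a731a6_co.Relaxations

universe u

/-- Let `M` be a 4-connected matroid with at least four elements, obtained from a matroid `N` by
relaxing a family `𝓗` of circuit-hyperplanes. A three-element set `X` is in no `U_{2,4}`-minor of
`M` iff it is in no `U_{2,4}`-minor of `N` and every member of `𝓗` contains `X` or is disjoint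
from `X`. If `N` is binary and `𝓗` is nonempty, then `M` is non-binary and `X` is in no
`U_{2,4}`-minor of `M` iff every member of `𝓗` contains `X` or is disjoint from `X`. -/
theorem result {α : Type u} (N M : Matroid α) [N.Finite] [M.Finite] (𝓗 : Set (Set α))
    (h : IsRelaxation N M 𝓗) (hM : TutteConnected 4 M) (h4 : 4 ≤ M.E.encard) :
    (∀ X ⊆ M.E, X.encard = 3 →
      (¬ InU24Minor M X ↔ (¬ InU24Minor N X ∧ ∀ H ∈ 𝓗, X ⊆ H ∨ Disjoint X H))) ∧
    (Binary N → 𝓗.Nonempty → (¬ Binary M ∧ ∀ X ⊆ M.E, X.encard = 3 →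
      (¬ InU24Minor M X ↔ ∀ H ∈ 𝓗, X ⊆ H ∨ Disjoint X H))) := by
  refine ⟨fun X hX hX3 => h.iff_aux hM h4 hX hX3, fun hN ⟨H, hH⟩ => ⟨?_, ?_⟩⟩
  · intro hMb
    obtain ⟨X, hX, hX3, hXn⟩ := h.exists_split h4 hH
    apply hXn
    exact ((h.iff_aux hM h4 hX hX3).1 hMb.not_inU24).2 H hH
  · intro X hX hX3
    rw [h.iff_aux hM h4 hX hX3]
    exact ⟨fun h' => h'.2, fun h' => ⟨hN.not_inU24, h'⟩⟩

end Pool.Agent.Results.MP_a731a6_co.Relaxations
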