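import Pool.Agent.Lib_helper36.Mat.RankFive

/-!
MP_a731a6_co: three-element sets in no `U_{2,4}`-minor force short circuits and cocircuits; in
particular the matroid and its dual are not paving.
-/

open Set H36Mat

namespace Pool.Agent.Results.MP_a731a6_co.ShortCircuits

universe u

lemma short {α : Type u} {M : Matroid α} [M.Finite] {X : Set α} (hX3 : X.encard = 3)
    (h5 : 5 ≤ M.eRank)
    (h : ∀ C ⊆ M.E \ X, C.encard + 4 = M.eRank → ∃ D, M.IsCircuit D ∧ (D \ C).encard ≤ 3) :
    ∃ D, M.IsCircuit D ∧ D.encard < M.eRank := by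
  classical
  obtain ⟨B, hB⟩ := M.exists_isBase
  obtain ⟨r, hr⟩ : ∃ r : ℕ, M.eRank = r := by
    lift M.eRank to ℕ using eRank_ne_top' with r
    exact ⟨r, rfl⟩
  have hr5 : 5 ≤ r := by rw [hr] at h5; exact_mod_cast h5
  have hBr : B.encard = r := by rw [hB.encard_eq_eRank, hr]
  have h1 : ((r - 4 : ℕ) : ℕ∞) ≤ (B \ X).encard := by
    have h2 : B.encard ≤ (B \ X).encard + X.encard := by
      refine le_trans (encard_le_encard (t := (B \ X) ∪ X) ?_) (encard_union_le _ _)
      rw [sdiff_union_self]; exact subset_union_left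
    rw [hBr, hX3] at h2
    by_contra hcon
    push Not at hcon
    have hfin : (B \ X).encard ≠ ⊤ := ne_top_of_lt hcon
    lift (B \ X).encard to ℕ using hfin with b hb
    have h3 : r ≤ b + 3 := by exact_mod_cast h2
    have h4 : b < r - 4 := by exact_mod_cast hcon
    omega
  obtain ⟨C, hC, hCr⟩ := Set.exists_subset_encard_eq h1
  obtain ⟨D, hD, hDC⟩ := h C (hC.trans (sdiff_subset_sdiff_left hB.subset_ground)) (by
    rw [hCr, hr]; exact_mod_cast (by omega : r - 4 + 4 = r))
  refine ⟨D, hD, ?_⟩
  have h2 : D.encard ≤ (D \ C).encard + C.encard := by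
    refine le_trans (encard_le_encard (t := (D \ C) ∪ C) ?_) (encard_union_le _ _)
    rw [sdiff_union_self]; exact subset_union_left
  calc D.encard ≤ (D \ C).encard + C.encard := h2
    _ ≤ 3 + ((r - 4 : ℕ) : ℕ∞) := by rw [hCr]; gcongr
    _ < M.eRank := by rw [hr]; exact_mod_cast (by omega : 3 + (r - 4) < r)

/-- Let the three-element set `X` be in no `U_{2,4}`-minor of the finite 4-connected matroid `M`
with at least four elements. For every set `C` of `r(M) - 4` elements outside `X` there is a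
circuit with at most three elements outside `C`; dually for cocircuits. In particular `M` has a
circuit with fewer than `r(M)` elements and its dual has such a circuit too, that is, neither
`M` nor its dual is paving. -/
theorem result {α : Type u} (M : Matroid α) [M.Finite] (hM : TutteConnected 4 M)
    (h4 : 4 ≤ M.E.encard) (X : Set α) (hX : X ⊆ M.E) (hX3 : X.encard = 3)
    (hbad : ¬ InU24Minor M X) :
    ((∀ C ⊆ M.E \ X, C.encard + 4 = M.eRank → ∃ D, M.IsCircuit D ∧ (D \ C).encard ≤ 3) ∧
      (∀ C ⊆ M.E \ X, C.encard + 4 = M✶.eRank → ∃ D, M.IsCocircuit D ∧ (D \ C).encard ≤ 3)) ∧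
    (∃ D, M.IsCircuit D ∧ D.encard < M.eRank) ∧
    (∃ D, M.IsCocircuit D ∧ D.encard < M✶.eRank) := by
  obtain ⟨h1, h2, h3, h5⟩ := necessary hM h4 hX hX3 hbad
  exact ⟨⟨h3, h5⟩, short hX3 h1 h3, short (M := M✶) hX3 h2 h5⟩

end Pool.Agent.Results.MP_a731a6_co.ShortCircuits
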